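import Pool.Agent.J4.H37.OA.P10
import Pool.Agent.H560R3.GB.Defs

/-!
# Goldbach's conjecture for almost all elements of the automatic sets of Ostrowski's numeration systems

Let `a 1, a 2, … ≥ 1` be the partial quotients of an irrational number and let `q i = den a i` be the denominators of
its convergents: `q 0 = 1`, `q 1 = a 1`, `q (i + 2) = a (i + 2) * q (i + 1) + q i`. Every integer `n ≥ 0` has exactly one
representation `n = ∑ w_i q_i` with `w_0 < a_1`, `w_{i + 1} ≤ a_{i + 2}` and `w_i = 0` whenever `w_{i + 1} = a_{i + 2}`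
(Ostrowski). For `a = (2, 1, 1, …)` this is Zeckendorf's representation by the Fibonacci numbers `1, 2, 3, 5, …`.

* Let the `a i` be eventually periodic (a quadratic irrationality) and let `S` be the set of the integers whose
  representation is accepted by a finite automaton `M`. If the number of the elements of `S` below `N` is not bounded by a
  power of `log N`, then Goldbach's conjecture and the formula of Hardy and Littlewood hold for almost all the elements
  of `S`, and for almost all the values of all the linear functions `c + κ n`, `n ∈ S`, `|c| ≤ B N`.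
* The same for all the sequences of partial quotients `a i ≤ Q` at the same time: `S` is the set of the values
  `∑ w_i q_i` of the words `w` over `{0, …, H - 1}` which are accepted by `M`, if different words have different values.

Definitions used: `Pool.Agent.R461.CF.den` as above. In `Pool.Agent.H560R3.GB`: `C₂`: the twin prime constant
`∏_{p > 2} (1 - 1 / (p - 1) ^ 2)`; `sing n`: the singular series `2 C₂ ∏_{p ∣ n, p > 2} (p - 1) / (p - 2)`; `g n`: the
number of ordered representations of `n` as a sum of two primes; `HL n = sing n * n / log ^ 2 n`: the prediction of Hardy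
and Littlewood for `g n`. From Mathlib: `DFA ℕ σ`: the deterministic automata with the set of states `σ` and the alphabet
`ℕ`; `M.accepts`: the set of the words accepted by `M`. The words are read from the least significant letter on.
-/

set_option autoImplicit false

namespace Pool.Agent.Results.MP_7b7e48_nt.OstrowskiAutomaticSets

open Finset Pool.Agent.H560R3.GB
open Pool.Agent.R461.CF (den)

/-- `n` is a sum of two distinct primes, and the number of its representations as a sum of two primes
agrees with the prediction of Hardy and Littlewood up to a relative error of at most `ε`. -/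
def Holds (ε : ℝ) (n : ℕ) : Prop :=
  |(g n : ℝ) - HL n| ≤ ε * HL n ∧ ∃ p q : ℕ, p.Prime ∧ q.Prime ∧ p ≠ q ∧ p + q = n

/-- The value `∑ w_i q_i` of the word `w`, where the `q_i` are the denominators of the convergents. -/
def value (a : ℕ → ℕ) (w : List ℕ) : ℕ := ∑ i ∈ range w.length, w.getD i 0 * den a i

/-- The representations of Ostrowski: `w_0 < a_1`, `w_{i + 1} ≤ a_{i + 2}`, `w_i = 0` if `w_{i + 1} = a_{i + 2}`, and the last
letter is not zero. -/
def Ostrowski (a : ℕ → ℕ) : Set (List ℕ) :=
  {w | w.getD 0 0 < a 1 ∧ (∀ i, w.getD (i + 1) 0 ≤ a (i + 2) ∧ (w.getD (i + 1) 0 = a (i + 2) → w.getD i 0 = 0)) ∧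
    ∀ h : w ≠ [], w.getLast h ≠ 0}

/-- The words over `{0, …, H - 1}` whose last letter is not zero. -/
def Words (H : ℕ) : Set (List ℕ) := {w | (∀ x ∈ w, x < H) ∧ ∀ h : w ≠ [], w.getLast h ≠ 0}

open Classical in
/-- The number of the integers `0 ≤ n < N` in `S` with the property `E`. -/
noncomputable def num (S : Set ℕ) (N : ℕ) (E : ℕ → Prop) : ℝ := (((range N).filter fun n => n ∈ S ∧ E n).card : ℝ)

lemma ost_mem {σ : Type} (a : ℕ → ℕ) (M : DFA ℕ σ) (n : ℕ) :
    n ∈ value a '' (Ostrowski a ∩ M.accepts) ↔ Pool.Agent.J4.H37.OA.Ost a M n := by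
  constructor
  · rintro ⟨w, ⟨⟨h1, h2, h3⟩, h4⟩, h5⟩
    exact ⟨w, h4, ⟨h1, h2⟩, h3, h5⟩
  · rintro ⟨w, h4, ⟨h1, h2⟩, h3, h5⟩
    exact ⟨w, ⟨⟨h1, h2, h3⟩, h4⟩, h5⟩

lemma digits_mem (H : ℕ) (hH : 2 ≤ H) (v : ℕ) : Nat.digits H v ∈ Words H := by
  refine ⟨fun x hx => Nat.digits_lt_base (by omega) hx, fun h => ?_⟩
  exact Nat.getLast_digit_ne_zero H (Nat.digits_ne_nil_iff_ne_zero.1 h)

lemma digits_of (H : ℕ) (hH : 2 ≤ H) (w : List ℕ) (hw : w ∈ Words H) : Nat.digits H (Nat.ofDigits H w) = w :=
  Nat.digits_ofDigits H (by omega) w hw.1 hw.2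

lemma word_mem {σ : Type} (H : ℕ) (hH : 2 ≤ H) (a : ℕ → ℕ) (M : DFA ℕ σ) (n : ℕ) :
    n ∈ value a '' (Words H ∩ M.accepts) ↔ ∃ v, Nat.digits H v ∈ M.accepts ∧ value a (Nat.digits H v) = n := by
  constructor
  · rintro ⟨w, ⟨h1, h2⟩, h3⟩
    have h4 := digits_of H hH w h1
    exact ⟨Nat.ofDigits H w, by rw [h4]; exact h2, by rw [h4]; exact h3⟩
  · rintro ⟨v, h1, h2⟩
    exact ⟨_, ⟨digits_mem H hH v, h1⟩, h2⟩

open Classical in
lemma count_words {σ : Type} (H : ℕ) (hH : 2 ≤ H) (M : DFA ℕ σ) (n : ℕ) :
    {w : List ℕ | w ∈ Words H ∩ M.accepts ∧ w.length ≤ n}.ncard = ((range (H ^ n)).filter fun v => Nat.digits H v ∈ M.accepts).card := by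
  have h1 : {w : List ℕ | w ∈ Words H ∩ M.accepts ∧ w.length ≤ n} =
      (fun v => Nat.digits H v) '' (((range (H ^ n)).filter fun v => Nat.digits H v ∈ M.accepts : Finset ℕ) : Set ℕ) := by
    ext w
    constructor
    · rintro ⟨⟨h1, h2⟩, h3⟩
      have h4 := digits_of H hH w h1
      refine ⟨Nat.ofDigits H w, ?_, h4⟩
      rw [mem_coe, mem_filter, mem_range, h4]
      refine ⟨?_, h2⟩
      rw [← Nat.digits_length_le_iff (by omega : 1 < H), h4]
      exact h3
    · rintro ⟨v, h1, rfl⟩
      rw [mem_coe, mem_filter, mem_range] at h1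
      refine ⟨⟨digits_mem H hH v, h1.2⟩, ?_⟩
      rw [Nat.digits_length_le_iff (by omega : 1 < H)]
      exact h1.1
  rw [h1, Set.ncard_image_of_injective _ (Nat.digits.injective H), Set.ncard_coe_finset]

/-- Let `M` be a finite automaton, `κ ≠ 0`, `B`, `U` and `ε > 0`.

(1) Let `a` be a sequence of partial quotients `a i ≥ 1` which is eventually periodic, and let `S` be the set of the integers
whose representation of Ostrowski is accepted by `M`. Suppose that the number of the elements of `S` below `N` is not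
bounded by a power of `log N`. Then, if `N` is large, we have for all the integers `c` with `|c| ≤ B N` and for all the
elements `n < N` of `S` with at most `#(S ∩ [0, N)) / log ^ U N` exceptions: if `c + κ n` is positive and even, then it is
a sum of two distinct primes, and the number of its representations as a sum of two primes agrees with the prediction of
Hardy and Littlewood up to a relative error of at most `ε`.

(2) Let `H ≥ 2`, and suppose that the number of the words of length at most `n` over `{0, …, H - 1}` without trailing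
zeros which are accepted by `M` is not bounded by a polynomial in `n`. Let `Q` be given. If `N` is large, then we have for
all the sequences `a` with `1 ≤ a i ≤ Q` for which these words have different values: the assertion of (1) holds for the
set `S` of these values. -/
theorem result {σ : Type} [Finite σ] (M : DFA ℕ σ) (κ : ℤ) (hκ : κ ≠ 0) (B U : ℕ) (ε : ℝ) (hε : 0 < ε) :
    (∀ a : ℕ → ℕ, (∀ i, 1 ≤ i → 1 ≤ a i) → (∃ r p, 0 < p ∧ ∀ i, r < i → a (i + p) = a i) →
      (∀ k : ℕ, ∃ᶠ N : ℕ in Filter.atTop, Real.log N ^ k < num (value a '' (Ostrowski a ∩ M.accepts)) N (fun _ => True)) →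
      ∃ N₀ : ℕ, ∀ N, N₀ ≤ N → ∀ c : ℤ, |c| ≤ B * N →
        num (value a '' (Ostrowski a ∩ M.accepts)) N (fun n => 0 < c + κ * n ∧ Even (c + κ * n) ∧ ¬ Holds ε (c + κ * n).toNat) ≤
          num (value a '' (Ostrowski a ∩ M.accepts)) N (fun _ => True) / Real.log N ^ U) ∧
    (∀ H : ℕ, 2 ≤ H →
      (∀ k : ℕ, ∃ᶠ n : ℕ in Filter.atTop, (n : ℝ) ^ k < ({w : List ℕ | w ∈ Words H ∩ M.accepts ∧ w.length ≤ n}.ncard : ℝ)) →
      ∀ Q : ℕ, ∃ N₀ : ℕ, ∀ N, N₀ ≤ N → ∀ a : ℕ → ℕ, (∀ i, 1 ≤ i → 1 ≤ a i ∧ a i ≤ Q) →
        Set.InjOn (value a) (Words H ∩ M.accepts) → ∀ c : ℤ, |c| ≤ B * N →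
        num (value a '' (Words H ∩ M.accepts)) N (fun n => 0 < c + κ * n ∧ Even (c + κ * n) ∧ ¬ Holds ε (c + κ * n).toNat) ≤
          num (value a '' (Words H ∩ M.accepts)) N (fun _ => True) / Real.log N ^ U) := by
  classical
  have := Fintype.ofFinite σ
  constructor
  · rintro a ha ⟨r, p, hp, hb⟩ hS
    have hnum : ∀ N, num (value a '' (Ostrowski a ∩ M.accepts)) N (fun _ => True) =
        (((range N).filter fun n => Pool.Agent.J4.H37.OA.Ost a M n).card : ℝ) := by
      intro N
      unfold num
      congr 2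
      ext v
      simp only [mem_filter, and_true, ost_mem]
    obtain ⟨N₀, h⟩ := Pool.Agent.J4.H37.OA.main_ost a ha r p hp hb M
      (fun k => (hS k).mono fun N hN => by rw [hnum] at hN; exact hN) κ hκ B U ε hε
    refine ⟨N₀, fun N hN c hc => ?_⟩
    rw [hnum]
    refine le_trans ?_ (h N hN c hc)
    unfold num
    apply Nat.cast_le.2
    apply card_le_card
    intro v hv
    simp only [mem_filter, ost_mem] at hv ⊢
    exact ⟨hv.1, hv.2.1, hv.2.2.1, hv.2.2.2.1.two_dvd, hv.2.2.2.2⟩
  · intro H hH hS Q
    have hHr : (1 : ℝ) < H := by exact_mod_cast (by omega : 1 < H)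
    have hlogH : 0 < Real.log H := Real.log_pos hHr
    obtain ⟨N₀, h⟩ := Pool.Agent.J4.H37.OA.main_O H hH M (by
      intro k
      rw [Filter.frequently_atTop]
      intro N₁
      obtain ⟨R, hR⟩ := exists_nat_ge (Real.log H ^ k)
      obtain ⟨n, hn, hnR⟩ := ((hS (k + 1)).and_eventually (Filter.eventually_ge_atTop (R + N₁))).exists
      refine ⟨H ^ n, ?_, ?_⟩
      · have : n < H ^ n := Nat.lt_pow_self (by omega)
        omega
      · rw [count_words H hH M n] at hn
        refine lt_of_le_of_lt ?_ hn
        push_cast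
        rw [Real.log_pow, mul_pow, pow_succ]
        apply mul_le_mul_of_nonneg_left _ (by positivity)
        exact hR.trans (by exact_mod_cast (by omega : R ≤ n))) Q κ hκ B U ε hε
    refine ⟨N₀, fun N hN a ha hinj c hc => ?_⟩
    have hnum : num (value a '' (Words H ∩ M.accepts)) N (fun _ => True) =
        (((range N).filter fun n : ℕ => ∃ v, Nat.digits H v ∈ M.accepts ∧ value a (Nat.digits H v) = n).card : ℝ) := by
      unfold num
      congr 2
      ext v
      simp only [mem_filter, and_true, word_mem H hH]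
    rw [hnum]
    refine le_trans ?_ (h N hN a ha (fun v v' hv hv' he => Nat.digits.injective H
      (hinj ⟨digits_mem H hH v, hv⟩ ⟨digits_mem H hH v', hv'⟩ he)) c hc)
    unfold num
    apply Nat.cast_le.2
    apply card_le_card
    intro v hv
    simp only [mem_filter, word_mem H hH] at hv ⊢
    exact ⟨hv.1, hv.2.1, hv.2.2.1, hv.2.2.2.1.two_dvd, hv.2.2.2.2⟩

end Pool.Agent.Results.MP_7b7e48_nt.OstrowskiAutomaticSets
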