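import Pool.Agent.J5.H37.UJ.Six

/-!
# Knots whose Jones polynomial is congruent to one modulo `N (1 - t^n)^r`

Diagrams (starting library `Pool.Agent.H891R2.Jones.Diagram`): `Diagram P` (oriented link diagrams,
planar or not), `Diagram.fPoly` (the normalised bracket `(-A^{-3})^{w(D)} ⟨D⟩ ∈ ℤ[A, A⁻¹]`, `A = T 1`,
i.e. the Jones polynomial `V(t)` with `t = A^{-4} = T (-4)`), `Diagram.IsClosed` (the pieces of the
diagram fit together to closed oriented curves), `Outer m` (an oriented diagram with an open box through
which `m` strands run, each of them in one of the two directions), `Outer.close` (the open box is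
filled with `m` vertical strands without crossings).  Starting libraries `Pool.Agent.W639.RB.Defs` and
`Pool.Agent.Y463.SK.Defs`: `Letter m` (the letters `σ_i^{±1}` of the braid group on `m` strands),
`braidClosure m` (the outside of the box for the usual closure of braids), `permW w` (the permutation
of the strands of the word `w`), `IsPure w` (it is the identity), `powW w k` (the word `w^k`, `k ∈ ℤ`),
`dia O w` (the diagram obtained by drawing `w` in the box of `O`).

`Pool.Agent.J5.H37.UJ.IsKnotW w` (file `Short.lean`): the permutation of `w` has a single cycle, i.e. the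
closure of the braid is a knot.

Proof: there are positive braids `u_2, u_3, u_5` on four strands such that `σ_3 u_p^{q_p} σ_1` and
`σ_1 u_p^{q_p} σ_3` agree in the Temperley-Lieb algebra modulo `p`, although they are different braids
(`q_2 = 4`, `q_3 = 3`, `q_5 = 5`; `u_p` acts unipotently modulo `p` in the reduced Burau
representation up to a full twist).  Iterated commutators of the quotients, of powers of generators and
of full twists on three strands, and powers of the result, are congruent to one modulo
`N (1 - t^n)^r` and do not become trivial.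
-/

set_option autoImplicit false

namespace Pool.Agent.Results.MP_7bc610_gt.UnitModN

open LaurentPolynomial Pool.Agent.H891R2.Jones Pool.Agent.W639.RB Pool.Agent.Y463.SK 
  Pool.Agent.J5.H37.UJ

/-- Let `N ≥ 1` have no prime factors except `2`, `3` and `5`, let `n ≥ 1` and `r ≥ 0`.  There are words
`c` and `w` on four strands, `c` pure, such that for all `k ∈ ℤ`:

* if `c^k` is inserted in four parallel strands of any oriented link diagram, classical or virtual, with
  any orientation of the strands, then the Jones polynomial does not change modulo `N (1 - t^n)^r`;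
* the closure of `c^k w` is a knot with Jones polynomial `≡ 1` modulo `N (1 - t^n)^r`;

and every Laurent polynomial (for instance `1`) is the Jones polynomial of the closure of `c^k w` for at
most `6` integers `k`. -/
theorem result (N : ℕ) (hN : N ≠ 0) (hp : ∀ p, p.Prime → p ∣ N → p = 2 ∨ p = 3 ∨ p = 5) (n : ℕ) 
    (hn : n ≠ 0) (r : ℕ) : ∃ c w : List (Letter 4), IsPure c ∧
      (∀ (O : Outer 4) (v : List (Letter 4)) (k : ℤ),
        (O.close.IsClosed → (∀ j, O.up (permW v j) = O.up j) → 
          (dia O (powW c k ++ v)).IsClosed ∧ (dia O v).IsClosed) ∧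
        (N : ℤ[T;T⁻¹]) * (1 - T (-4) ^ n) ^ r ∣ (dia O (powW c k ++ v)).fPoly - (dia O v).fPoly) ∧
      (∀ k : ℤ, (dia (braidClosure 4) (powW c k ++ w)).IsClosed ∧ IsKnotW (powW c k ++ w) ∧
        (N : ℤ[T;T⁻¹]) * (1 - T (-4) ^ n) ^ r ∣ (dia (braidClosure 4) (powW c k ++ w)).fPoly - 1) ∧
      ∀ (F : ℤ[T;T⁻¹]) (Z : Finset ℤ), 
        (∀ k ∈ Z, (dia (braidClosure 4) (powW c k ++ w)).fPoly = F) → Z.card ≤ 6 := by
  obtain ⟨x, hx, hperm, hcost, hc1, w0, hw0, hne⟩ := exists_good hN hp hn r
  obtain ⟨c, hc⟩ := exists_toN x hx
  obtain ⟨w, hw, hknot⟩ := hw0.letters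
  have hpure : IsPure c := pure_of_permL (by rw [hc]; exact hperm)
  have hins : ∀ (O : Outer 4) (v : List (Letter 4)) (k : ℤ), 
      (N : ℤ[T;T⁻¹]) * (1 - T (-4) ^ n) ^ r ∣ (dia O (powW c k ++ v)).fPoly - (dia O v).fPoly := by
    intro O v k
    rw [dia_fPoly, dia_fPoly, toN_append, toN_pow, hc]
    obtain ⟨z, hz⟩ := powL_C1 hx hc1 k
    have h1 := congrArg (fun y : S0 => (y : BB 4)) hz
    simp only [sw_coe] at h1
    exact transfer (by norm_num) O (powL x k) (toN v) (powL_lt hx k) (toN_lt v) 
      (permL_powL hperm k) (by rw [costS_powL hperm, hcost, mul_zero]) _ (z : BB 4) z.2 h1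
  have hw1 : (dia (braidClosure 4) w).fPoly = 1 := by
    rw [dia_fPoly, hw]
    exact hw0.ff_eq
  refine ⟨c, w, hpure, fun O v k => ⟨fun hO hv => ⟨?_, dia_closed' O hO v hv⟩, hins O v k⟩, 
    fun k => ⟨?_, ?_, ?_⟩, fun F Z hZ => ?_⟩
  · apply dia_closed' O hO
    intro j
    rw [permW_append, permW_powW hpure, one_mul]
    exact hv j
  · exact dia_closed' _ closure_closed _ (fun _ => rfl)
  · intro i j
    rw [permW_append, permW_powW hpure, one_mul]
    exact hknot i j
  · have h1 := hins (braidClosure 4) w k
    rwa [hw1] at h1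
  · rcases powers_le (by norm_num) hpure w F with h2 | h2
    · exfalso
      apply hne
      have h3 : (dia (braidClosure 4) (c ++ w)).fPoly = ff (braidClosure 4) (x ++ w0) := by
        rw [dia_fPoly, toN_append, hc, hw]
      rw [← h3, h2.2, ← h2.1, hw1]
    · exact h2 Z hZ

end Pool.Agent.Results.MP_7bc610_gt.UnitModN
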